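import Pool.Agent.Helper95.MX.Core
import Pool.Agent.Helper21.MX.Win
import Pool.Agent.Helper29.MX.Proc
import Pool.Agent.Helper89.MX.QuantOf

set_option autoImplicit false

/-!
# The bound before the choice of the parameters, from the transfer inequality
-/

namespace Pool.Agent.Helper21.MX

open Finset
open Pool.Agent.Helper22.ETModel Pool.Agent.Helper22.TSModel Pool.Agent.Helper22.EP
open Pool.Agent.Helper23.SP (pre sg Om g put supp Free)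
open Pool.Agent.Helper8.PQ

/-- The statement of the transfer inequality. -/
def TransB : Prop :=
  ∀ {m n k b U M N d a D W R K c : ℕ} [NeZero b] {t1 s κ B s0 L Y Q H : ℕ} {Λ : ℝ}
    (h : 3 * m ≤ n) (_ : 1 ≤ m) (_ : 2 * b ^ k ≤ m) (_ : 1 ≤ d) (_ : 2 * d * t1 ≤ s0)
    (_ : 256 * K ≤ 2 ^ t1) (_ : 256 * K * d ^ 2 ≤ N + 1) (_ : 256 * K * (4 * s0 * d) ≤ M)
    (_ : 512 * (k * (U * (2 * (s * κ) + 1)) ^ s) ≤ M)
    (_ : 512 * (3 * m ^ 2 * (2 * (s * κ) + 1)) ^ s ≤ N + 1) (_ : 2 * N + 2 ≤ L)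
    (_ : B + s * κ * (2 * N + 1) + 1 ≤ L) (_ : M ≤ Y) (_ : s * κ * M ≤ Y) (_ : 1 ≤ M)
    (_ : (3 * m ^ 2 + 1) ^ d ≤ H) (_ : (acC d : ℝ) * H * (L * (Y : ℝ) ^ k) ≤ Λ)
    (_ : 2 * (acC d : ℝ) * H * Λ ^ d ≤ Q) (_ : 1 ≤ Q)
    (_ : s * κ * (L * Y ^ k) + B + 1 ≤ Q)
    (_ : 256 * (2 * (D * (3 * m ^ 2 *
      ((2 * d * (K + (n ^ 2 * (2 * κ + 1)) ^ s * (2 * B + 1)) + 1) * a)))) ≤ N + 1)
    (_ : Even L) (_ : Even Q) (_ : L * Y ^ k ≤ Q) (_ : Q * (N + 1) ≤ n ^ c)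
    (A : Alg n D W R (PolQ n d a) SignType) (_ : DecidesC A (polFam n d a) c)
    (_ : FewM A s κ B K),
    m ^ 2 * 2 ^ R * Fintype.card (Om (E m) k b U × BgM m k U M N) ≤
      16 * ∑ z : Om (E m) k b U × BgM m k U M N, ∑ ρ : Fin R → Bool,
        (rvM A h s κ B s0 L Y Q Λ z ρ).card

/-- The main bound: windows of length `l β ^ (k - r0)`. -/
theorem mainB_of (hT : TransB) : MainB := by
  intro m n k M N d a D W R K c s κ B s0 S1 t1 x L Y Q H Λ β t l r0 Nw h hβ ht hl1 hl hs1 _hk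
    hbk hmt hr0 hr01 hNw hNw' hx hd hs0 h1 h2 h3 hK hN hM hMf hNf hL hLB hY hYs hM1 hH hΛ hQ hQ1
    hQs h4 hLe hQe hLQ hQn A hA hAK
  classical
  obtain ⟨b, hb⟩ : ∃ b, b = 60 * β * t := ⟨_, rfl⟩
  have hb1 : 1 ≤ b := by
    rw [hb]; exact Nat.mul_pos (Nat.mul_pos (by omega) hβ) ht
  have : NeZero b := ⟨by omega⟩
  rw [← hb] at hbk hr01
  have hbk1 : 1 ≤ b ^ k := Nat.pow_pos hb1
  have hm : 1 ≤ m := by omega
  have hx1 : 1 ≤ x := le_trans (Nat.mul_pos hs1 hl1) hl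
  have hU1 : 1 ≤ b ^ 2 * x := Nat.mul_pos (Nat.pow_pos hb1) hx1
  have hbn : b ^ k ≤ n := by omega
  have hwin : ∀ (lam : BgM m k (b ^ 2 * x) M N) (ρ : Fin R → Bool),
      ∃ Bad : Finset (Om (E m) k b (b ^ 2 * x)),
      Bad.card * 2 ^ x ≤ 2 * (D + m) * W * k * Fintype.card (Om (E m) k b (b ^ 2 * x)) ∧
      ∀ ω, ω ∉ Bad → ∀ t0 v, t0 + l * β ^ (k - r0) ≤ D + m →
        ((procM A h s κ B s0 L Y Q Λ lam ρ).rev ω t0 v (l * β ^ (k - r0)) k).card ≤ 6 * x :=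
    fun lam ρ => window_mainM
      (procM (k := k) (b := b) (U := b ^ 2 * x) A h s κ B s0 L Y Q Λ lam ρ)
      (procM_ok A h h1 h2 h3 L Y Q Λ lam ρ) (x := x) (β := β) (t := t) (l := l) (T := D + m)
      (r0 := r0) hx1 hβ ht hl hb rfl (hbk.trans hmt) hr0 hr01
  refine core_mainM (k := k) (b := b) (U := b ^ 2 * x) (M := M) (N := N) h hM1 hU1 hNw hNw' hx A
    hwin ?_
  exact hT (k := k) (b := b) (U := b ^ 2 * x) (M := M) (N := N) h hm hbk hd hs0 hK hN hM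
    (hMf b hbn) hNf hL hLB hY hYs hM1 hH hΛ hQ hQ1 hQs h4 hLe hQe hLQ hQn A hA hAK

/-- The quadratic bound: with one digit per element (`b = 1`) every step reveals at most `S1`
elements. -/
theorem trivB_of (hT : TransB) : TrivB := by
  intro m n k M N d a D W R K c s κ B s0 S1 t1 x L Y Q H Λ h hm _hk hx1 hd hs0 h1 h2 h3 hK hN hM
    hMf hNf hL hLB hY hYs hM1 hH hΛ hQ hQ1 hQs h4 hLe hQe hLQ hQn A hA hAK
  classical
  have hMf1 : 512 * (k * (x * (2 * (s * κ) + 1)) ^ s) ≤ M := by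
    have h5 := hMf 1 (by rw [one_pow]; omega)
    rwa [one_pow, one_mul] at h5
  have hok : ∀ (lam : BgM m k x M N) (ρ : Fin R → Bool),
      (procM (b := 1) A h s κ B s0 L Y Q Λ lam ρ).OK S1 :=
    fun lam ρ => procM_ok A h h1 h2 h3 L Y Q Λ lam ρ
  refine core_trivialM (k := k) (b := 1) (U := x) (M := M) (N := N) h hM1 hx1 A hok ?_
  exact hT (k := k) (b := 1) (U := x) (M := M) (N := N) h (by omega) (by simpa using hm)
    hd hs0 hK hN hM hMf1 hNf hL hLB hY hYs hM1 hH hΛ hQ hQ1 hQs h4 hLe hQe hLQ hQn A hA hAK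

end Pool.Agent.Helper21.MX
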