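import Pool.Agent.Helper95.MX.Rv

set_option autoImplicit false

/-!
# The bound from the windows and the average number of revealed elements
-/

namespace Pool.Agent.Helper21.MX

open Finset
open Pool.Agent.Helper22.ETModel Pool.Agent.Helper22.TSModel Pool.Agent.Helper22.EP
open Pool.Agent.Helper23.SP (pre sg Om g put supp Free)
open Pool.Agent.Helper8.PQ

variable {m n k b U M N d a D W R K : ℕ} [NeZero b]

/-- The main bound from the windows. -/
theorem core_mainM {β l r0 Nw x s κ B s0 L Y Q : ℕ} {Λ : ℝ} (h : 3 * m ≤ n)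
    (hM1 : 1 ≤ M) (hU1 : 1 ≤ U) (hNw : D ≤ Nw * (l * β ^ (k - r0)))
    (hNw' : Nw * (l * β ^ (k - r0)) ≤ D + m) (hx : 192 * ((D + m) * W * k) ≤ 2 ^ x)
    (A : Alg n D W R (PolQ n d a) SignType)
    (hwin : ∀ (lam : BgM m k U M N) (ρ : Fin R → Bool), ∃ Bad : Finset (Om (E m) k b U),
      Bad.card * 2 ^ x ≤ 2 * (D + m) * W * k * Fintype.card (Om (E m) k b U) ∧
      ∀ ω, ω ∉ Bad → ∀ t0 v, t0 + l * β ^ (k - r0) ≤ D + m →
        ((procM A h s κ B s0 L Y Q Λ lam ρ).rev ω t0 v (l * β ^ (k - r0)) k).card ≤ 6 * x)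
    (key : m ^ 2 * 2 ^ R * Fintype.card (Om (E m) k b U × BgM m k U M N) ≤
      16 * ∑ z : Om (E m) k b U × BgM m k U M N, ∑ ρ : Fin R → Bool,
        (rvM A h s κ B s0 L Y Q Λ z ρ).card) :
    m ^ 2 ≤ 192 * x * Nw := by
  classical
  have h2s : 0 < 2 ^ x := by positivity
  obtain ⟨Dg, hDg⟩ : ∃ c, c = Fintype.card (Om (E m) k b U) := ⟨_, rfl⟩
  obtain ⟨Lm, hLm⟩ : ∃ c, c = Fintype.card (BgM m k U M N) := ⟨_, rfl⟩
  have hDgpos : 0 < Dg := by
    rw [hDg]
    exact Fintype.card_pos_iff.2 ⟨(fun _ _ => 0, fun _ _ => ⟨0, by omega⟩)⟩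
  have hLmpos : 0 < Lm := by
    rw [hLm]
    exact Fintype.card_pos_iff.2
      ⟨(fun _ => false, fun _ _ => ⟨0, by omega⟩, fun _ => 0)⟩
  -- one background and one random string
  have hone : ∀ (lam : BgM m k U M N) (ρ : Fin R → Bool),
      96 * ∑ dg : Om (E m) k b U, (rvM A h s κ B s0 L Y Q Λ (dg, lam) ρ).card ≤
      Dg * (576 * (x * Nw) + m ^ 2) := by
    intro lam ρ
    obtain ⟨Bad, hBad, hgood⟩ := hwin lam ρ
    rw [← hDg] at hBad
    have hBad96 : 96 * Bad.card ≤ Dg := by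
      apply Nat.le_of_mul_le_mul_right _ h2s
      calc 96 * Bad.card * 2 ^ x = 96 * (Bad.card * 2 ^ x) := by ring
        _ ≤ 96 * (2 * (D + m) * W * k * Dg) := Nat.mul_le_mul_left _ hBad
        _ = 192 * ((D + m) * W * k) * Dg := by ring
        _ ≤ 2 ^ x * Dg := Nat.mul_le_mul_right _ hx
        _ = Dg * 2 ^ x := by ring
    have hcard : ∀ dg : Om (E m) k b U, (rvM A h s κ B s0 L Y Q Λ (dg, lam) ρ).card ≤
        6 * x * Nw + (if dg ∈ Bad then m ^ 2 else 0) := by
      intro dg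
      by_cases hω : dg ∈ Bad
      · rw [if_pos hω]
        exact (rvM_card_le' A h s κ B s0 L Y Q Λ (dg, lam) ρ).trans (Nat.le_add_left _ _)
      · rw [if_neg hω, Nat.add_zero]
        refine (rvM_card_le A h s κ B s0 L Y Q Λ (dg, lam) ρ).trans ?_
        refine (card_le_card (rev_mono _ dg 0 _ hNw le_rfl)).trans ?_
        have := rev_mul_card (procM A h s κ B s0 L Y Q Λ lam ρ) dg 0
          (A.init (flagOf h) ρ) Nw (l * β ^ (k - r0)) k (6 * x) (by
            intro j hj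
            apply hgood dg hω
            have h3 : (j + 1) * (l * β ^ (k - r0)) ≤ Nw * (l * β ^ (k - r0)) :=
              Nat.mul_le_mul_right _ hj
            have h4 : (j + 1) * (l * β ^ (k - r0)) =
              j * (l * β ^ (k - r0)) + l * β ^ (k - r0) := by ring
            omega)
        calc _ ≤ Nw * (6 * x) := this
          _ = 6 * x * Nw := by ring
    have hsum : ∑ dg : Om (E m) k b U, (rvM A h s κ B s0 L Y Q Λ (dg, lam) ρ).card ≤
        Dg * (6 * x * Nw) + Bad.card * m ^ 2 := by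
      refine (sum_le_sum (fun dg _ => hcard dg)).trans ?_
      rw [sum_add_distrib, sum_const, card_univ, smul_eq_mul, Finset.sum_ite_mem, univ_inter,
        sum_const, smul_eq_mul, hDg]
    calc 96 * ∑ dg : Om (E m) k b U, (rvM A h s κ B s0 L Y Q Λ (dg, lam) ρ).card
        ≤ 96 * (Dg * (6 * x * Nw) + Bad.card * m ^ 2) := Nat.mul_le_mul_left _ hsum
      _ = Dg * (576 * (x * Nw)) + (96 * Bad.card) * m ^ 2 := by ring
      _ ≤ Dg * (576 * (x * Nw)) + Dg * m ^ 2 :=
          Nat.add_le_add_left (Nat.mul_le_mul_right _ hBad96) _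
      _ = Dg * (576 * (x * Nw) + m ^ 2) := by ring
  have hpos : 0 < 2 ^ R * (Dg * Lm) :=
    Nat.mul_pos (by positivity) (Nat.mul_pos hDgpos hLmpos)
  have hcardprod : Fintype.card (Om (E m) k b U × BgM m k U M N) = Dg * Lm := by
    rw [Fintype.card_prod, hDg, hLm]
  rw [hcardprod] at key
  have htot : 6 * m ^ 2 * (2 ^ R * (Dg * Lm)) ≤
      (576 * (x * Nw) + m ^ 2) * (2 ^ R * (Dg * Lm)) := by
    calc 6 * m ^ 2 * (2 ^ R * (Dg * Lm)) = 6 * (m ^ 2 * 2 ^ R * (Dg * Lm)) := by ring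
      _ ≤ 6 * (16 * ∑ z : Om (E m) k b U × BgM m k U M N, ∑ ρ : Fin R → Bool,
            (rvM A h s κ B s0 L Y Q Λ z ρ).card) := Nat.mul_le_mul_left _ key
      _ = 96 * ∑ z : Om (E m) k b U × BgM m k U M N, ∑ ρ : Fin R → Bool,
            (rvM A h s κ B s0 L Y Q Λ z ρ).card := by ring
      _ = ∑ ρ : Fin R → Bool, ∑ lam : BgM m k U M N,
            96 * ∑ dg : Om (E m) k b U, (rvM A h s κ B s0 L Y Q Λ (dg, lam) ρ).card := by
          rw [sum_comm, mul_sum]
          apply sum_congr rfl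
          intro ρ _
          rw [Fintype.sum_prod_type_right, mul_sum]
      _ ≤ ∑ _ρ : Fin R → Bool, ∑ _lam : BgM m k U M N, Dg * (576 * (x * Nw) + m ^ 2) :=
          sum_le_sum (fun ρ _ => sum_le_sum (fun lam _ => hone lam ρ))
      _ = (576 * (x * Nw) + m ^ 2) * (2 ^ R * (Dg * Lm)) := by
          rw [sum_const, sum_const, card_univ, card_univ, Fintype.card_fun, Fintype.card_bool,
            Fintype.card_fin, smul_eq_mul, smul_eq_mul, ← hLm]
          ring
  have h6 := Nat.le_of_mul_le_mul_right htot hpos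
  have h7 : 192 * x * Nw = 192 * (x * Nw) := by ring
  rw [h7]
  omega

/-- The quadratic bound: every step reveals at most `S1` elements. -/
theorem core_trivialM {S1 s κ B s0 L Y Q : ℕ} {Λ : ℝ} (h : 3 * m ≤ n)
    (hM1 : 1 ≤ M) (hU1 : 1 ≤ U) (A : Alg n D W R (PolQ n d a) SignType)
    (hok : ∀ (lam : BgM m k U M N) (ρ : Fin R → Bool),
      (procM (b := b) A h s κ B s0 L Y Q Λ lam ρ).OK S1)
    (key : m ^ 2 * 2 ^ R * Fintype.card (Om (E m) k b U × BgM m k U M N) ≤
      16 * ∑ z : Om (E m) k b U × BgM m k U M N, ∑ ρ : Fin R → Bool,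
        (rvM A h s κ B s0 L Y Q Λ z ρ).card) :
    m ^ 2 ≤ 16 * S1 * D := by
  classical
  set T := Fintype.card (Om (E m) k b U × BgM m k U M N) with hT
  have hpos : 0 < 2 ^ R * T := by
    apply Nat.mul_pos (by positivity)
    rw [hT]
    exact Fintype.card_pos_iff.2
      ⟨((fun _ _ => 0, fun _ _ => ⟨0, by omega⟩), fun _ => false, fun _ _ => ⟨0, by omega⟩,
        fun _ => 0)⟩
  have hle : ∀ (z : Om (E m) k b U × BgM m k U M N) (ρ : Fin R → Bool),
      (rvM A h s κ B s0 L Y Q Λ z ρ).card ≤ S1 * D := fun z ρ =>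
    (rvM_card_le A h s κ B s0 L Y Q Λ z ρ).trans
      (rev_card_le (hok z.2 ρ) z.1 0 _ D k)
  have h2 : m ^ 2 * (2 ^ R * T) ≤ (16 * S1 * D) * (2 ^ R * T) := by
    calc m ^ 2 * (2 ^ R * T) = m ^ 2 * 2 ^ R * T := by ring
      _ ≤ 16 * ∑ z : Om (E m) k b U × BgM m k U M N, ∑ ρ : Fin R → Bool,
            (rvM A h s κ B s0 L Y Q Λ z ρ).card := key
      _ ≤ 16 * ∑ _z : Om (E m) k b U × BgM m k U M N, ∑ _ρ : Fin R → Bool, S1 * D :=
          Nat.mul_le_mul_left _ (sum_le_sum fun z _ => sum_le_sum fun ρ _ => hle z ρ)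
      _ = (16 * S1 * D) * (2 ^ R * T) := by
          rw [sum_const, sum_const, card_univ, card_univ, Fintype.card_fun, Fintype.card_bool,
            Fintype.card_fin, smul_eq_mul, smul_eq_mul, ← hT]
          ring
  exact Nat.le_of_mul_le_mul_right h2 hpos

end Pool.Agent.Helper21.MX
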