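import Pool.Agent.Helper21.MX.Defs

set_option autoImplicit false

/-!
# The revealed elements of type `0`
-/

namespace Pool.Agent.Helper21.MX

open Finset
open Pool.Agent.Helper22.ETModel Pool.Agent.Helper22.TSModel Pool.Agent.Helper22.EP
open Pool.Agent.Helper23.SP (pre sg Om g put supp Free)
open Pool.Agent.Helper8.PQ

variable {m n k b U M N d a D W R K : ℕ} [NeZero b]

open Classical in
/-- The revealed elements of type `0`. -/
noncomputable def rvM (A : Alg n D W R (PolQ n d a) SignType) (h : 3 * m ≤ n)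
    (s κ B s0 L Y Q : ℕ) (Λ : ℝ) (z : Om (E m) k b U × BgM m k U M N) (ρ : Fin R → Bool) :
    Finset (Fin m × Fin m) :=
  univ.filter (fun p => ((0, p.1, p.2) : E m) ∈
    (procM A h s κ B s0 L Y Q Λ z.2 ρ).rev z.1 0 (A.init (flagOf h) ρ) D k)

lemma rvM_card_le (A : Alg n D W R (PolQ n d a) SignType) (h : 3 * m ≤ n)
    (s κ B s0 L Y Q : ℕ) (Λ : ℝ) (z : Om (E m) k b U × BgM m k U M N) (ρ : Fin R → Bool) :
    (rvM A h s κ B s0 L Y Q Λ z ρ).card ≤
      ((procM A h s κ B s0 L Y Q Λ z.2 ρ).rev z.1 0 (A.init (flagOf h) ρ) D k).card := by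
  classical
  apply card_le_card_of_injOn (fun p => ((0, p.1, p.2) : E m))
  · intro p hp
    rw [mem_coe, rvM, mem_filter] at hp
    exact hp.2
  · intro p _ p' _ hpp
    simp only [Prod.mk.injEq, true_and] at hpp
    exact Prod.ext hpp.1 hpp.2

lemma rvM_card_le' (A : Alg n D W R (PolQ n d a) SignType) (h : 3 * m ≤ n)
    (s κ B s0 L Y Q : ℕ) (Λ : ℝ) (z : Om (E m) k b U × BgM m k U M N) (ρ : Fin R → Bool) :
    (rvM A h s κ B s0 L Y Q Λ z ρ).card ≤ m ^ 2 := by
  classical
  refine (card_le_univ _).trans ?_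
  rw [Fintype.card_prod, Fintype.card_fin, sq]

end Pool.Agent.Helper21.MX
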